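import Mathlib
import Pool.Agent.Helper69.Emit
import Pool.Agent.Helper69.Mix.PSpace

/-!
# Iterating an emitting program in polynomial space

A language which is decided by iterating a polynomial time word function, all the iterates having
polynomial length, is in PSPACE.
-/

namespace Pool.Agent.Helper50.Mix

open Turing Pool.Agent.Helper69 Pool.Agent.Helper69.Mix

section Machine

variable {K G L : Type} [DecidableEq K] [DecidableEq G] [Fintype K]

/-- The total length of the stacks. -/
def sp (s : K → List G) : ℕ := ∑ k, (s k).length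

omit [DecidableEq G] in
theorem sp_update_le (s : K → List G) (k : K) (l : List G) :
    sp (Function.update s k l) + (s k).length ≤ sp s + l.length := by
  unfold sp
  have h1 := Finset.add_sum_erase Finset.univ (fun j => (s j).length) (Finset.mem_univ k)
  have h2 := Finset.add_sum_erase Finset.univ
    (fun j => (Function.update s k l j).length) (Finset.mem_univ k)
  have h3 : ∑ j ∈ Finset.univ.erase k, (Function.update s k l j).length =
      ∑ j ∈ Finset.univ.erase k, (s j).length := by
    refine Finset.sum_congr rfl fun j hj => ?_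
    rw [Function.update_of_ne (Finset.ne_of_mem_erase hj)]
  simp only [Function.update_self] at h2
  rw [h3] at h2
  omega

/-- Every step adds at most one symbol. -/
def Tame (M : L → TM2.Stmt (fun _ : K => G) L (Option G)) : Prop :=
  ∀ (l : L) (v : Option G) (s : K → List G), sp (TM2.stepAux (M l) v s).stk ≤ sp s + 1

/-- The machine runs from `a` to `b` and meets on the way only configurations of total length at
most `S`. -/
def RunS (M : L → TM2.Stmt (fun _ : K => G) L (Option G)) (S : ℕ)
    (a b : TM2.Cfg (fun _ : K => G) L (Option G)) : Prop :=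
  ∃ n, Cmd.Steps M n a b ∧ ∀ m ≤ n, ∀ x, Cmd.Steps M m a x → sp x.stk ≤ S

omit [Fintype K] in
theorem Steps.rest {M : L → TM2.Stmt (fun _ : K => G) L (Option G)} {n m : ℕ}
    {a b c : TM2.Cfg (fun _ : K => G) L (Option G)} (h1 : Cmd.Steps M n a b)
    (h2 : Cmd.Steps M (n + m) a c) : Cmd.Steps M m b c := by
  unfold Cmd.Steps at *
  rw [Nat.add_comm, Function.iterate_add_apply, h1] at h2
  exact h2

theorem RunS.trans {M : L → TM2.Stmt (fun _ : K => G) L (Option G)} {S : ℕ}
    {a b c : TM2.Cfg (fun _ : K => G) L (Option G)} (h1 : RunS M S a b) (h2 : RunS M S b c) :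
    RunS M S a c := by
  obtain ⟨n, hn, hn'⟩ := h1
  obtain ⟨m, hm, hm'⟩ := h2
  refine ⟨n + m, hn.trans hm, fun i hi x hx => ?_⟩
  rcases le_total i n with h | h
  · exact hn' i h x hx
  · obtain ⟨j, rfl⟩ := Nat.exists_eq_add_of_le h
    exact hm' j (by omega) x (Steps.rest hn hx)

theorem RunS.one {M : L → TM2.Stmt (fun _ : K => G) L (Option G)} {S : ℕ}
    {a b : TM2.Cfg (fun _ : K => G) L (Option G)} (h : TM2.step M a = some b)
    (ha : sp a.stk ≤ S) (hb : sp b.stk ≤ S) : RunS M S a b := by
  refine ⟨1, Cmd.Steps.one h, fun m hm x hx => ?_⟩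
  rcases Nat.le_one_iff_eq_zero_or_eq_one.mp hm with rfl | rfl
  · have : a = x := by simpa [Cmd.Steps] using hx
    exact this ▸ ha
  · have h' := Cmd.Steps.one h
    unfold Cmd.Steps at h' hx
    rw [h'] at hx
    have : b = x := by simpa using hx
    exact this ▸ hb

theorem Tame.steps {M : L → TM2.Stmt (fun _ : K => G) L (Option G)} (hM : Tame M) (n : ℕ)
    (a x : TM2.Cfg (fun _ : K => G) L (Option G)) (h : Cmd.Steps M n a x) :
    sp x.stk ≤ sp a.stk + n := by
  induction n generalizing x with
  | zero =>
    have : a = x := by simpa [Cmd.Steps] using h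
    exact this ▸ le_rfl
  | succ n ih =>
    unfold Cmd.Steps at h
    rw [Function.iterate_succ_apply'] at h
    cases hy : (flip bind (TM2.step M))^[n] (some a) with
    | none =>
      rw [hy] at h
      simp [flip] at h
    | some y =>
      have h1 := ih y hy
      rw [hy] at h
      have h2 : TM2.step M y = some x := by simpa [flip] using h
      obtain ⟨l, v, s⟩ := y
      cases l with
      | none => simp [TM2.step] at h2
      | some l =>
        simp only [TM2.step, Option.some.injEq] at h2
        have h3 := hM l v s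
        rw [h2] at h3
        simp only at h1
        omega

theorem code_tame (c : Cmd K G) : ∀ (emb : Cmd.Lbl c → L) (ex : L) (l : Cmd.Lbl c)
    (v : Option G) (s : K → List G),
    sp (TM2.stepAux (Cmd.code c emb ex l) v s).stk ≤ sp s + 1 := by
  induction c with
  | skip =>
    intro emb ex l v s
    simp [Cmd.code, TM2.stepAux]
  | push k a =>
    intro emb ex l v s
    simp only [Cmd.code, TM2.stepAux]
    have := sp_update_le s k (a :: s k)
    simp only [List.length_cons] at this
    omega
  | pop k =>
    intro emb ex l v s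
    simp only [Cmd.code, TM2.stepAux]
    have := sp_update_le s k (s k).tail
    simp only [List.length_tail] at this
    omega
  | seq c d ih1 ih2 =>
    intro emb ex l v s
    rcases l with l | l
    · exact ih1 _ _ l v s
    · exact ih2 _ _ l v s
  | ite k a c d ih1 ih2 =>
    intro emb ex l v s
    rcases l with l | l | l
    · simp only [Cmd.code, TM2.stepAux]
      cases decide ((s k).head? = some a) <;> simp
    · exact ih1 _ _ l v s
    · exact ih2 _ _ l v s
  | whl k c ih =>
    intro emb ex l v s
    rcases l with l | l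
    · simp only [Cmd.code, TM2.stepAux]
      cases ((s k).head?).isSome <;> simp
    · exact ih _ _ l v s

end Machine

/-- Runs of a command within the space `S`. -/
inductive BSN (B S : ℕ) : Cmd ℕ Sym → St → St → Prop
  | base {c s s' n} : Cmd.Exec c s s' n → Cmd.top c ≤ B → sp (Cmd.rst B s) + n ≤ S → BSN B S c s s'
  | seq {c d s s' s''} : BSN B S c s s' → BSN B S d s' s'' → BSN B S (.seq c d) s s''
  | whlS {k c s s' s''} : k < B → s k ≠ [] → sp (Cmd.rst B s) ≤ S → BSN B S c s s' →
      BSN B S (.whl k c) s' s'' → BSN B S (.whl k c) s s''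

theorem RunS.of_exec {K L : Type} [DecidableEq K] [Fintype K]
    {M : L → TM2.Stmt (fun _ : K => Sym) L (Option Sym)} (hM : Tame M) {c : Cmd K Sym}
    {s s' : K → List Sym} {n S : ℕ} (h : Cmd.Exec c s s' n) (hS : sp s + n ≤ S)
    (emb : Cmd.Lbl c → L) (ex : L) (hc : ∀ l, M (emb l) = Cmd.code c emb ex l) :
    RunS M S ⟨some (emb (Cmd.entry c)), none, s⟩ ⟨some ex, none, s'⟩ := by
  refine ⟨n, Cmd.sim M h emb ex hc, fun m hm x hx => ?_⟩
  have := hM.steps m _ x hx
  simp only at this
  omega

theorem BSN.space_le {B S : ℕ} {c : Cmd ℕ Sym} {s s' : St} (h : BSN B S c s s') :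
    sp (Cmd.rst B s) ≤ S := by
  induction h with
  | base _ _ h => omega
  | seq _ _ h _ => exact h
  | whlS _ _ h => exact h

theorem simS {L : Type} {B S : ℕ} {M : L → TM2.Stmt (fun _ : Fin (B + 1) => Sym) L (Option Sym)}
    (hM : Tame M) {c : Cmd ℕ Sym} {s s' : St} (h : BSN B S c s s') :
    ∀ (emb : Cmd.Lbl (Cmd.map (Cmd.clamp B) c) → L) (ex : L),
      (∀ l, M (emb l) = Cmd.code (Cmd.map (Cmd.clamp B) c) emb ex l) →
      RunS M S ⟨some (emb (Cmd.entry _)), none, Cmd.rst B s⟩ ⟨some ex, none, Cmd.rst B s'⟩ := by
  induction h with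
  | base h hB hS =>
    intro emb ex hc
    exact RunS.of_exec hM (h.map_rst hB) hS emb ex hc
  | @seq c d s s' s'' _ _ ih1 ih2 =>
    intro emb ex hc
    have h1 := ih1 (fun l => emb (Sum.inl l)) (emb (Sum.inr (Cmd.entry (Cmd.map (Cmd.clamp B) d))))
      (fun l => hc (Sum.inl l))
    have h2 := ih2 (fun l => emb (Sum.inr l)) ex (fun l => hc (Sum.inr l))
    exact h1.trans h2
  | @whlS k c s s' s'' hk hne hsp hb _ ih1 ih2 =>
    intro emb ex hc
    have h1 := ih1 (fun l => emb (Sum.inr l)) (emb (Sum.inl ())) (fun l => hc (Sum.inr l))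
    have h2 := ih2 emb ex hc
    refine RunS.trans (RunS.one ?_ hsp hsp) (h1.trans h2)
    obtain ⟨x, xs, hx⟩ := List.exists_cons_of_ne_nil hne
    have hx' : Cmd.rst B s (Cmd.clamp B k) = x :: xs := by
      rw [Cmd.rst_clamp hk, hx]
    have hc' := hc (Sum.inl ())
    change some (TM2.stepAux (M (emb (Sum.inl ()))) none (Cmd.rst B s)) = _
    rw [hc']
    simp [Cmd.code, Cmd.map, TM2.stepAux, hx']

/-- Reachable configurations are reached after some number of steps. -/
theorem steps_of_reaches {K L G : Type} [DecidableEq K] [DecidableEq G]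
    {M : L → TM2.Stmt (fun _ : K => G) L (Option G)}
    {a x : TM2.Cfg (fun _ : K => G) L (Option G)} (h : StateTransition.Reaches (TM2.step M) a x) :
    ∃ m, Cmd.Steps M m a x := by
  induction h with
  | refl => exact ⟨0, rfl⟩
  | tail _ h ih =>
    obtain ⟨m, hm⟩ := ih
    exact ⟨m + 1, hm.trans (Cmd.Steps.one h)⟩

theorem RunS.reaches {K L G : Type} [DecidableEq K] [DecidableEq G] [Fintype K]
    {M : L → TM2.Stmt (fun _ : K => G) L (Option G)} {S : ℕ}
    {a b x : TM2.Cfg (fun _ : K => G) L (Option G)} (h : RunS M S a b) (hb : TM2.step M b = none)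
    (hx : StateTransition.Reaches (TM2.step M) a x) : sp x.stk ≤ S := by
  obtain ⟨n, hn, hn'⟩ := h
  obtain ⟨m, hm⟩ := steps_of_reaches hx
  rcases le_or_gt m n with h | h
  · exact hn' m h x hm
  · exfalso
    obtain ⟨j, rfl⟩ := Nat.exists_eq_add_of_lt h
    have h1 := Steps.rest (m := j + 1) hn hm
    unfold Cmd.Steps at h1
    rw [Function.iterate_succ_apply] at h1
    have e : flip bind (TM2.step M) (some b) = none := by simp [flip, hb]
    rw [e] at h1
    have e2 : ∀ i, (flip bind (TM2.step M))^[i] none = none := by
      intro i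
      induction i with
      | zero => rfl
      | succ i ih => rw [Function.iterate_succ_apply', ih]; simp [flip]
    rw [e2] at h1
    simp at h1

theorem mach_space (c : Cmd ℕ Sym) (B : ℕ) (hB2 : 2 ≤ B) (w v : List Sym) (S : ℕ)
    (h : BSN B S c (single 0 w) (single 1 v)) (hv : sp (Cmd.rst B (single 1 v)) ≤ S) :
    Nonempty (TM2Outputs (mach c B) w (some v)) ∧
      ∀ x : (mach c B).Cfg, StateTransition.Reaches (mach c B).step (initList (mach c B) w) x →
        space (mach c B) x ≤ S := by
  have hT : Tame (K := Fin (B + 1)) (fun l : Option (Cmd.Lbl (Cmd.map (Cmd.clamp B) c)) =>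
      (match l with
      | none => TM2.Stmt.halt
      | some l => Cmd.code (Cmd.map (Cmd.clamp B) c) some none l :
        TM2.Stmt (fun _ : Fin (B + 1) => Sym) (Option (Cmd.Lbl (Cmd.map (Cmd.clamp B) c)))
          (Option Sym))) := by
    intro l v s
    cases l with
    | none => simp [TM2.stepAux]
    | some l => exact code_tame _ _ _ l v s
  have h2 := simS hT h some none (fun l => rfl)
  have h3 := RunS.one (S := S) (M := (fun l : Option (Cmd.Lbl (Cmd.map (Cmd.clamp B) c)) =>
      (match l with
      | none => TM2.Stmt.halt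
      | some l => Cmd.code (Cmd.map (Cmd.clamp B) c) some none l :
        TM2.Stmt (fun _ : Fin (B + 1) => Sym) (Option (Cmd.Lbl (Cmd.map (Cmd.clamp B) c)))
          (Option Sym))))
    (a := ⟨some none, none, Cmd.rst B (single 1 v)⟩) (b := ⟨none, none, Cmd.rst B (single 1 v)⟩) rfl
    hv hv
  have h4 := h2.trans h3
  have e1 : initList (mach c B) w = ⟨some (some (Cmd.entry _)), none, Cmd.rst B (single 0 w)⟩ := by
    unfold initList
    congr 1
    refine funext fun (k : Fin (B + 1)) => ?_
    by_cases hk : k = Cmd.clamp B 0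
    · subst hk
      rw [Cmd.rst_clamp (by omega)]
      simp only [single, Function.update_self]
      exact dif_pos rfl
    · have : k.1 ≠ 0 := by
        intro h0
        apply hk
        apply Fin.ext
        simpa [Cmd.clamp] using h0
      have e : Cmd.rst B (single 0 w) k = [] := by
        simp [Cmd.rst, single, Function.update_of_ne this]
      rw [e]
      exact dif_neg hk
  have e2 : haltList (mach c B) v = ⟨none, none, Cmd.rst B (single 1 v)⟩ := by
    unfold haltList
    congr 1
    refine funext fun (k : Fin (B + 1)) => ?_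
    by_cases hk : k = Cmd.clamp B 1
    · subst hk
      rw [Cmd.rst_clamp (by omega)]
      simp only [single, Function.update_self]
      exact dif_pos rfl
    · have : k.1 ≠ 1 := by
        intro h0
        apply hk
        apply Fin.ext
        simp only [Cmd.clamp]
        omega
      have e : Cmd.rst B (single 1 v) k = [] := by
        simp [Cmd.rst, single, Function.update_of_ne this]
      rw [e]
      exact dif_neg hk
  refine ⟨?_, ?_⟩
  · obtain ⟨n, hn, -⟩ := h4
    refine ⟨⟨n, ?_⟩⟩
    change (flip bind (mach c B).step)^[n] (some (initList (mach c B) w)) =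
      some (haltList (mach c B) v)
    rw [e1, e2]
    exact hn
  · intro x hx
    rw [e1] at hx
    exact h4.reaches rfl hx

/-! ### The frame rule -/

theorem exec_frame {c : Cmd ℕ Sym} {s s' : St} {n F : ℕ} (h : Cmd.Exec c s s' n)
    (hF : Cmd.top c ≤ F) (l : List Sym) :
    Cmd.Exec c (Function.update s F l) (Function.update s' F l) n := by
  induction h with
  | skip s => exact .skip _
  | push k a s =>
    simp only [Cmd.top] at hF
    have hk : k ≠ F := by omega
    have := Cmd.Exec.push k a (Function.update s F l)
    rw [Function.update_of_ne hk, Function.update_comm hk.symm] at this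
    exact this
  | pop k s =>
    simp only [Cmd.top] at hF
    have hk : k ≠ F := by omega
    have := Cmd.Exec.pop k (Function.update s F l)
    rw [Function.update_of_ne hk, Function.update_comm hk.symm] at this
    exact this
  | seq _ _ ih1 ih2 =>
    simp only [Cmd.top, max_le_iff] at hF
    exact .seq (ih1 hF.1) (ih2 hF.2)
  | @iteT k a c d s s' n hk _ ih =>
    simp only [Cmd.top, max_le_iff] at hF
    refine .iteT ?_ (ih hF.2.1)
    rw [Function.update_of_ne (by omega)]
    exact hk
  | @iteF k a c d s s' n hk _ ih =>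
    simp only [Cmd.top, max_le_iff] at hF
    refine .iteF ?_ (ih hF.2.2)
    rw [Function.update_of_ne (by omega)]
    exact hk
  | @whlE k c s hk =>
    simp only [Cmd.top, max_le_iff] at hF
    refine .whlE ?_
    rw [Function.update_of_ne (by omega)]
    exact hk
  | @whlS k c s s' s'' n m hk _ _ ih1 ih2 =>
    have hF' := hF
    simp only [Cmd.top, max_le_iff] at hF'
    refine .whlS ?_ (ih1 hF'.2) (ih2 hF)
    rw [Function.update_of_ne (by omega)]
    exact hk

theorem move_spec (a b : ℕ) (hab : a ≠ b) (xs : List Sym) : ∀ s : St, s a = xs →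
    ExecLe (.whl a (mv a b)) s
      (Function.update (Function.update s a []) b (xs.reverse ++ s b)) (xs.length * 6 + 1) := by
  induction xs with
  | nil =>
    intro s hs
    refine ⟨1, by omega, ?_⟩
    have e : Function.update (Function.update s a []) b (([] : List Sym).reverse ++ s b) = s := by
      funext k
      simp only [Function.update_apply]
      split_ifs <;> simp_all
    rw [e]
    exact .whlE hs
  | cons x xs ih =>
    intro s hs
    obtain ⟨n, hn, h1⟩ := mv_spec a b s x xs hs hab
    obtain ⟨m, hm, h2⟩ := ih (Function.update (Function.update s a xs) b (x :: s b))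
      (by rw [Function.update_of_ne hab, Function.update_self])
    refine ⟨n + m + 1, by simp only [List.length_cons]; omega, ?_⟩
    have e : Function.update (Function.update s a []) b ((x :: xs).reverse ++ s b) =
        Function.update (Function.update (Function.update (Function.update s a xs) b (x :: s b))
          a []) b (xs.reverse ++ Function.update (Function.update s a xs) b (x :: s b) b) := by
      funext k
      simp only [Function.update_apply]
      split_ifs <;> simp_all
    rw [e]
    exact .whlS (by rw [hs]; simp) h1 h2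

/-! ### The program -/

/-- The body of the loop: stop if the top symbol of stack 1 is not the separator, otherwise move
stack 1 to stack 0 and apply the program. `F` is the flag stack and `F + 1` is auxiliary. -/
def body (p : Em) (F : ℕ) : Cmd ℕ Sym :=
  .ite 1 none (.seq (.whl 1 (mv 1 (F + 1))) (.seq (.whl (F + 1) (mv (F + 1) 0)) p.full))
    (.pop F)

/-- The whole program. -/
def prog (p q : Em) (F : ℕ) : Cmd ℕ Sym :=
  .seq p.full (.seq (.push F (some true)) (.whl F (body q F)))

/-- The state at the loop head. -/
def hd (F : ℕ) (u : List Sym) : St := Function.update (single 1 u) F [some true]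

theorem body_go (q : Em) (F D : ℕ) (hF : Cmd.top q.full ≤ F) (hF2 : 2 ≤ F)
    (hD : ∀ w : List Sym, ExecLe q.full (single 0 w) (single 1 (q.out w)) ((w.length + 100) ^ D))
    (u : List Sym) (hu : u.head? = some none) :
    ExecLe (body q F) (hd F u) (hd F (q.out u)) (u.length * 12 + (u.length + 100) ^ D + 3) := by
  have h1 := move_spec 1 (F + 1) (by omega) u (hd F u)
    (by rw [hd, Function.update_of_ne (by omega), single, Function.update_self])
  have h2 := move_spec (F + 1) 0 (by omega) u.reverse
    (Function.update (Function.update (hd F u) 1 []) (F + 1) (u.reverse ++ hd F u (F + 1)))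
    (by
      rw [Function.update_self, hd, Function.update_of_ne (by omega), single,
        Function.update_of_ne (by omega)]
      simp)
  obtain ⟨n, hn, h3⟩ := hD u
  have h4 := exec_frame h3 hF [some true]
  have h5 : ExecLe q.full (Function.update (Function.update
      (Function.update (Function.update (hd F u) 1 []) (F + 1) (u.reverse ++ hd F u (F + 1)))
      (F + 1) []) 0 (u.reverse.reverse ++ (Function.update (Function.update (hd F u) 1 []) (F + 1)
        (u.reverse ++ hd F u (F + 1))) 0)) (hd F (q.out u)) ((u.length + 100) ^ D) := by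
    refine ⟨n, hn, ?_⟩
    convert! h4 using 1
    funext k
    simp only [hd, single, Function.update_apply]
    split_ifs <;> first | omega | simp_all
  refine (ExecLe.iteT (by
    rw [hd, Function.update_of_ne (by omega), single, Function.update_self]
    exact hu) (h1.seq (h2.seq h5))).mono ?_
  simp only [List.length_reverse]
  omega

theorem body_stop (q : Em) (F : ℕ) (hF2 : 2 ≤ F) (u : List Sym) (hu : u.head? ≠ some none) :
    ExecLe (body q F) (hd F u) (single 1 u) 2 := by
  refine ExecLe.iteF (by
    rw [hd, Function.update_of_ne (by omega), single, Function.update_self]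
    exact hu) (ExecLe.pop' ?_)
  funext k
  simp only [hd, single, Function.update_apply]
  split_ifs <;> first | omega | simp_all

theorem sp_single (B k : ℕ) (hk : k < B) (u : List Sym) :
    sp (Cmd.rst B (single k u)) ≤ u.length := by
  rw [single, Cmd.rst_update hk]
  have h := sp_update_le (Cmd.rst B fun _ => []) (Cmd.clamp B k) u
  have h2 : sp (Cmd.rst B (fun _ => ([] : List Sym))) = 0 := by
    simp [sp, Cmd.rst]
  omega

theorem sp_hd (B F : ℕ) (hF : F < B) (h1 : 1 < B) (u : List Sym) :
    sp (Cmd.rst B (hd F u)) ≤ u.length + 1 := by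
  rw [hd, Cmd.rst_update hF]
  have h := sp_update_le (Cmd.rst B (single 1 u)) (Cmd.clamp B F) [some true]
  have h2 := sp_single B 1 h1 u
  simp only [List.length_cons, List.length_nil] at h
  omega

theorem top_body (q : Em) (F : ℕ) (hF : Cmd.top q.full ≤ F) (hF2 : 2 ≤ F) :
    Cmd.top (body q F) ≤ F + 2 := by
  simp only [body, Cmd.top, mv, max_le_iff]
  omega

theorem loop_run (q : Em) (F B D len S : ℕ) (hF : Cmd.top q.full ≤ F) (hF2 : 2 ≤ F)
    (hB : F + 2 ≤ B)
    (hD : ∀ w : List Sym, ExecLe q.full (single 0 w) (single 1 (q.out w)) ((w.length + 100) ^ D))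
    (hS : len * 13 + (len + 100) ^ D + 4 ≤ S) (n : ℕ) : ∀ u : List Sym,
    (∀ m < n, (q.out^[m] u).head? = some none) → (q.out^[n] u).head? ≠ some none →
    (∀ m ≤ n, (q.out^[m] u).length ≤ len) →
    BSN B S (.whl F (body q F)) (hd F u) (single 1 (q.out^[n] u)) := by
  induction n with
  | zero =>
    intro u _ h2 h3
    have hlen : u.length ≤ len := h3 0 le_rfl
    obtain ⟨m, hm, h4⟩ := body_stop q F hF2 u h2
    have hsp := sp_hd B F (by omega) (by omega) u
    have hsp' := sp_single B 1 (by omega) u
    have hpos : 0 < (len + 100) ^ D := by positivity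
    refine .whlS (by omega) ?_ (by omega) (.base h4 ?_ (by omega))
      (.base (.whlE (k := F) (c := body q F) (s := single 1 u) ?_) ?_ (by omega))
    · simp [hd]
    · exact (top_body q F hF hF2).trans hB
    · rw [single, Function.update_of_ne (by omega)]
    · have := top_body q F hF hF2
      simp only [Cmd.top, max_le_iff]
      omega
  | succ n ih =>
    intro u h1 h2 h3
    have hlen : u.length ≤ len := h3 0 (by omega)
    obtain ⟨m, hm, h4⟩ := body_go q F D hF hF2 hD u (h1 0 (by omega))
    have hsp := sp_hd B F (by omega) (by omega) u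
    have hpow : (u.length + 100) ^ D ≤ (len + 100) ^ D := Nat.pow_le_pow_left (by omega) D
    refine .whlS (by omega) ?_ (by omega) (.base h4 ?_ (by omega)) (ih (q.out u) ?_ ?_ ?_)
    · simp [hd]
    · exact (top_body q F hF hF2).trans hB
    · intro m hm
      rw [← Function.iterate_succ_apply]
      exact h1 (m + 1) (by omega)
    · rw [← Function.iterate_succ_apply]
      exact h2
    · intro m hm
      rw [← Function.iterate_succ_apply]
      exact h3 (m + 1) (by omega)

theorem prog_run (p q : Em) (F B D D' len S : ℕ) (hF : Cmd.top q.full ≤ F)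
    (hF' : Cmd.top p.full ≤ F) (hF2 : 2 ≤ F) (hB : F + 2 ≤ B)
    (hD : ∀ w : List Sym, ExecLe q.full (single 0 w) (single 1 (q.out w)) ((w.length + 100) ^ D))
    (hD' : ∀ w : List Sym, ExecLe p.full (single 0 w) (single 1 (p.out w))
      ((w.length + 100) ^ D'))
    (w : List Sym) (hS : len * 13 + (len + 100) ^ D + (w.length + 100) ^ D' + w.length + 4 ≤ S)
    (n : ℕ) (h1 : ∀ m < n, (q.out^[m] (p.out w)).head? = some none)
    (h2 : (q.out^[n] (p.out w)).head? ≠ some none)
    (h3 : ∀ m ≤ n, (q.out^[m] (p.out w)).length ≤ len) :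
    BSN B S (prog p q F) (single 0 w) (single 1 (q.out^[n] (p.out w))) := by
  obtain ⟨m, hm, h4⟩ := hD' w
  have hsp := sp_single B 0 (by omega) w
  have hsp' := sp_single B 1 (by omega) (p.out w)
  have hlen : (p.out w).length ≤ len := h3 0 (by omega)
  refine .seq (.base h4 (by omega) (by omega)) (.seq (s' := hd F (p.out w)) (.base (n := 1) ?_ ?_ ?_)
    (loop_run q F B D len S hF hF2 hB hD (by omega) n _ h1 h2 h3))
  · have := Cmd.Exec.push F (some true) (single 1 (p.out w))
    convert! this using 1
    rw [hd, single, Function.update_of_ne (show F ≠ 1 by omega)]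
  · simp only [Cmd.top]
    omega
  · omega

theorem inPSPACE_of_em (L : Set Word) (ini stp : Em) (C c : ℕ)
    (hlen : ∀ w n, (stp.out^[n] (ini.out w)).length ≤ C * (w.length + 1) ^ c)
    (hdec : ∀ w, ∃ n, (∀ m < n, (stp.out^[m] (ini.out w)).head? = some none) ∧
      (w ∈ L → stp.out^[n] (ini.out w) = [some true]) ∧
      (w ∉ L → stp.out^[n] (ini.out w) = [some false])) : InPSPACE L := by
  obtain ⟨D, hD⟩ := full_spec stp
  obtain ⟨D', hD'⟩ := full_spec ini
  set F := max (Cmd.top stp.full) (max (Cmd.top ini.full) 2) with hF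
  refine ⟨mach (prog ini stp F) (F + 2), Equiv.refl _, Equiv.refl _,
    C * 13 + (C + 100) ^ D + 100 ^ D' + 6, c * (D + 1) + D' + 1, ?_, ?_⟩
  · intro k
    exact inferInstanceAs (Finite Sym)
  intro w
  have key : ∀ (r : Bool) (n : ℕ), (∀ m < n, (stp.out^[m] (ini.out w)).head? = some none) →
      stp.out^[n] (ini.out w) = [some r] →
      Nonempty (TM2Outputs (mach (prog ini stp F) (F + 2)) w (some [some r])) ∧
      ∀ x : (mach (prog ini stp F) (F + 2)).Cfg,
        StateTransition.Reaches (mach (prog ini stp F) (F + 2)).step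
          (initList (mach (prog ini stp F) (F + 2)) w) x →
        space (mach (prog ini stp F) (F + 2)) x ≤
          (C * 13 + (C + 100) ^ D + 100 ^ D' + 6) * (w.length + 1) ^ (c * (D + 1) + D' + 1) := by
    intro r n h1 h2
    have h3 := prog_run ini stp F (F + 2) D D' (C * (w.length + 1) ^ c)
      ((C * 13 + (C + 100) ^ D + 100 ^ D' + 6) * (w.length + 1) ^ (c * (D + 1) + D' + 1))
      (by omega) (by omega) (by omega) le_rfl hD hD' w ?_ n h1
      (by rw [h2]; simp) (fun m _ => hlen w m)
    · rw [h2] at h3
      refine mach_space _ _ (by omega) w [some r] _ h3 ?_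
      refine (sp_single (F + 2) 1 (by omega) [some r]).trans ?_
      have : 1 ≤ (w.length + 1) ^ (c * (D + 1) + D' + 1) := Nat.one_le_pow _ _ (by omega)
      simp only [List.length_cons, List.length_nil]
      have h6 : 1 ≤ C * 13 + (C + 100) ^ D + 100 ^ D' + 6 := Nat.le_add_left_of_le (by norm_num)
      have h5 := Nat.mul_le_mul h6 this
      omega
    · set N := w.length + 1 with hN
      have hN1 : 1 ≤ N := by omega
      have e1 : N ^ c ≤ N ^ (c * (D + 1) + D' + 1) := by
        apply Nat.pow_le_pow_right hN1
        nlinarith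
      have e2 : (C * N ^ c + 100) ^ D ≤ (C + 100) ^ D * N ^ (c * (D + 1) + D' + 1) := by
        calc (C * N ^ c + 100) ^ D ≤ ((C + 100) * N ^ c) ^ D := by
              apply Nat.pow_le_pow_left
              have : 1 ≤ N ^ c := Nat.one_le_pow _ _ hN1
              nlinarith
          _ = (C + 100) ^ D * N ^ (c * D) := by rw [Nat.mul_pow, ← pow_mul]
          _ ≤ _ := by
              apply Nat.mul_le_mul_left
              apply Nat.pow_le_pow_right hN1
              nlinarith
      have e3 : (w.length + 100) ^ D' ≤ 100 ^ D' * N ^ (c * (D + 1) + D' + 1) := by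
        calc (w.length + 100) ^ D' ≤ (100 * N) ^ D' := Nat.pow_le_pow_left (by omega) _
          _ = 100 ^ D' * N ^ D' := Nat.mul_pow _ _ _
          _ ≤ _ := by
              apply Nat.mul_le_mul_left
              apply Nat.pow_le_pow_right hN1
              omega
      have e4 : w.length ≤ N ^ (c * (D + 1) + D' + 1) := by
        calc w.length ≤ N ^ 1 := by rw [pow_one]; omega
          _ ≤ _ := Nat.pow_le_pow_right hN1 (by omega)
      have e5 : 1 ≤ N ^ (c * (D + 1) + D' + 1) := Nat.one_le_pow _ _ hN1
      generalize N ^ (c * (D + 1) + D' + 1) = P at *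
      generalize (C + 100) ^ D = P1 at *
      generalize 100 ^ D' = P2 at *
      have e6 : C * N ^ c * 13 ≤ C * 13 * P := by
        calc C * N ^ c * 13 = C * 13 * N ^ c := by ring
          _ ≤ _ := Nat.mul_le_mul_left _ e1
      calc _ ≤ C * 13 * P + P1 * P + P2 * P + P + 4 * P := by omega
        _ ≤ _ := by nlinarith
  obtain ⟨n, hn, hy, hno⟩ := hdec w
  by_cases hw : w ∈ L
  · obtain ⟨h1, h2⟩ := key true n hn (hy hw)
    have h7 : ∀ w' : List Sym, w = w' →
        (Nonempty (TM2Outputs (mach (prog ini stp F) (F + 2)) w' (some [some true])) ∧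
        ∀ x : (mach (prog ini stp F) (F + 2)).Cfg,
        StateTransition.Reaches (mach (prog ini stp F) (F + 2)).step
          (initList (mach (prog ini stp F) (F + 2)) w') x →
        space (mach (prog ini stp F) (F + 2)) x ≤
          (C * 13 + (C + 100) ^ D + 100 ^ D' + 6) * (w.length + 1) ^ (c * (D + 1) + D' + 1)) := by
      rintro _ rfl
      exact ⟨h1, h2⟩
    have h8 := h7 (List.map (id : Sym → Sym) w) (List.map_id w).symm
    exact ⟨fun _ => h8.1, fun h => absurd hw h, h8.2⟩
  · obtain ⟨h1, h2⟩ := key false n hn (hno hw)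
    have h7 : ∀ w' : List Sym, w = w' →
        (Nonempty (TM2Outputs (mach (prog ini stp F) (F + 2)) w' (some [some false])) ∧
        ∀ x : (mach (prog ini stp F) (F + 2)).Cfg,
        StateTransition.Reaches (mach (prog ini stp F) (F + 2)).step
          (initList (mach (prog ini stp F) (F + 2)) w') x →
        space (mach (prog ini stp F) (F + 2)) x ≤
          (C * 13 + (C + 100) ^ D + 100 ^ D' + 6) * (w.length + 1) ^ (c * (D + 1) + D' + 1)) := by
      rintro _ rfl
      exact ⟨h1, h2⟩
    have h8 := h7 (List.map (id : Sym → Sym) w) (List.map_id w).symm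
    exact ⟨fun h => absurd h hw, fun _ => h8.1, h8.2⟩

end Pool.Agent.Helper50.Mix
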